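import Pool.Agent.W117.GS.Stm

/-!
Project GS (helper117), task GS-G3: the equation `(K - Δ) (K - Δ)⁻¹ h = h`.
-/

set_option autoImplicit false

open scoped ContDiff
open MeasureTheory Filter Topology Set

namespace Pool.Agent.W349.GS.G3

open Pool.Agent.Helper676.CS Pool.Agent.W117.GS

/-- values of a `CB` function are bounded -/
lemma cb_val {V : Type} [NormedAddCommGroup V] [NormedSpace ℝ V] {n : ℕ} {f : ℝ × ℝ → V}
    (h : CB n f) : ∃ C, ∀ x, ‖f x‖ ≤ C := by
  obtain ⟨C, hC⟩ := h.2 0 (Nat.zero_le _)
  exact ⟨C, fun x => by simpa using hC x⟩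

theorem main : PropG3 := by
  intro K h hK hh hG x
  obtain ⟨C, hC⟩ := cb_val hh
  have hC' : ∀ y, |h y| ≤ C := fun y => by simpa [Real.norm_eq_abs] using hC y
  have hcont : Continuous h := hh.1.continuous
  have hm : Measurable h := hcont.measurable
  have hlc := continuous_lap hG
  have hGc := hG.continuous
  set g : ℝ × ℝ → ℝ := fun x => K * Gc K h x - lap (Gc K h) x - h x with hg
  have hgc : Continuous g := ((continuous_const.mul hGc).sub hlc).sub hcont
  have key : ∀ᵐ x ∂(volume : Measure (ℝ × ℝ)), g x = 0 := by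
    refine ae_eq_zero_of_integral_contDiff_smul_eq_zero hgc.locallyIntegrable ?_
    intro φ hφ hcs
    have hφ2 : ContDiff ℝ 2 φ := contDiff_infty.1 hφ 2
    have w := Gc_weak hK hm hC' hφ2 hcs
    have gr := green hG hφ2 hcs
    have i1 : Integrable fun x => K * Gc K h x * φ x :=
      ((continuous_const.mul hGc).mul hφ2.continuous).integrable_of_hasCompactSupport
        hcs.mul_left
    have i2 : Integrable fun x => lap (Gc K h) x * φ x :=
      (hlc.mul hφ2.continuous).integrable_of_hasCompactSupport hcs.mul_left
    have i3 : Integrable fun x => h x * φ x :=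
      (hcont.mul hφ2.continuous).integrable_of_hasCompactSupport hcs.mul_left
    have i4 : Integrable fun x => Gc K h x * lap φ x :=
      (hGc.mul (continuous_lap hφ2)).integrable_of_hasCompactSupport
        (hasCompactSupport_lap hcs).mul_left
    have e1 : ∫ x, φ x • g x = (∫ x, K * Gc K h x * φ x) - (∫ x, lap (Gc K h) x * φ x) -
        ∫ x, h x * φ x := by
      have i12 : Integrable fun x => K * Gc K h x * φ x - lap (Gc K h) x * φ x := i1.sub i2
      rw [← integral_sub i1 i2, ← integral_sub i12 i3]
      congr 1; ext x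
      simp only [hg, smul_eq_mul]; ring
    have e2 : ∫ x, Gc K h x * (K * φ x - lap φ x) = (∫ x, K * Gc K h x * φ x) -
        ∫ x, Gc K h x * lap φ x := by
      rw [← integral_sub i1 i4]
      congr 1; ext x; ring
    rw [e1, ← gr, ← w, e2]; ring
  have : g = fun _ => (0 : ℝ) := (Continuous.ae_eq_iff_eq volume hgc continuous_const).1 key
  have h2 := congrFun this x
  simp only [hg] at h2
  linarith

end Pool.Agent.W349.GS.G3
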