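import Pool.Agent.W117.GS.Stm

/-!
Project GS (helper117), task GS-RG: regularity of solutions of the integral equation.
-/

set_option autoImplicit false

open scoped ContDiff
open MeasureTheory Filter Topology Set

namespace Pool.Agent.W349.GS.RG

open Pool.Agent.Helper676.CS Pool.Agent.W117.GS

/-- values of a `CB` function are bounded -/
lemma cb_val {V : Type} [NormedAddCommGroup V] [NormedSpace ℝ V] {n : ℕ} {f : ℝ × ℝ → V}
    (h : CB n f) : ∃ C, ∀ x, ‖f x‖ ≤ C := by
  obtain ⟨C, hC⟩ := h.2 0 (Nat.zero_le _)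
  exact ⟨C, fun x => by simpa using hC x⟩

lemma CB.mono {V : Type} [NormedAddCommGroup V] [NormedSpace ℝ V] {n m : ℕ} {f : ℝ × ℝ → V}
    (h : CB n f) (hm : m ≤ n) : CB m f :=
  ⟨h.1.of_le (by exact_mod_cast hm), fun i hi => h.2 i (hi.trans hm)⟩

theorem main (hG1 : PropG1) (hG2 : PropG2) (hG3 : PropG3) (hCO : PropCO) (hPA : PropPA) :
    PropRG := by
  intro K C F U w hK hF hU hwm hwb hw
  set h : ℝ × ℝ → ℝ := fun y => K * w y + F (U y, w y) with hh
  have hwe : w = Gc K h := funext hw
  set Φ : U3 × ℝ → ℝ := fun p => K * p.2 + F p with hΦ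
  have hΦs : ContDiff ℝ ∞ Φ := (contDiff_const.mul contDiff_snd).add hF
  obtain ⟨R, hR⟩ := cb_val (hU 0)
  have hUc : Continuous U := (hU 0).1.continuous
  -- the right-hand side is bounded
  obtain ⟨B, hB⟩ : ∃ B, ∀ y, |h y| ≤ B := by
    have hc : IsCompact (Metric.closedBall (0 : U3) R ×ˢ Metric.closedBall (0 : ℝ) C) :=
      (isCompact_closedBall _ _).prod (isCompact_closedBall _ _)
    obtain ⟨B, hB⟩ := hc.exists_bound_of_continuousOn hΦs.continuous.continuousOn
    refine ⟨B, fun y => ?_⟩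
    have := hB (U y, w y) ⟨by simpa using hR y, by simpa [Real.norm_eq_abs] using hwb y⟩
    simpa [hΦ, hh, Real.norm_eq_abs] using this
  have hhm : Measurable h :=
    hΦs.continuous.measurable.comp (hUc.measurable.prodMk hwm)
  have h1 : CB 1 w := by
    rw [hwe]; exact hG1 K B h hK hhm hB
  have hstep : ∀ n, CB n w → CB n h := fun n hn => by
    have hp := hPA U3 ℝ n U w (hU n) hn
    exact hCO (U3 × ℝ) ℝ n Φ _ hΦs hp
  have hall : ∀ n, CB n w := by
    intro n
    induction n with
    | zero => exact CB.mono h1 (Nat.zero_le _)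
    | succ n ih =>
      have := hG2 K n h hK (hstep n ih)
      rwa [← hwe] at this
  refine ⟨hall, fun x => ?_⟩
  have h2 : ContDiff ℝ 2 (Gc K h) := by
    rw [← hwe]; exact (hall 2).1
  have h3 := hG3 K h hK (hstep 1 h1) h2 x
  rw [← hwe] at h3
  simp only [hh] at h3
  linarith

end Pool.Agent.W349.GS.RG
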